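import Mathlib
import Pool.Agent.H5.Auto.Final

/-!
Automorphic spaces that contain `c₀`.
-/

set_option autoImplicit false

namespace Pool.Agent.Results.MP_783db4_an.ContainsCZero

/-- A separable automorphic Banach space that contains an isomorphic copy of `c₀` is an
`ℒ_∞`-space: for some `Λ`, every finite-dimensional subspace is contained in a `Λ`-isomorphic
copy of some `ℓ_∞^N`. -/
theorem result (X : Type*) [NormedAddCommGroup X] [NormedSpace ℝ X] [CompleteSpace X]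
    (hsep : TopologicalSpace.SeparableSpace X)
    (hX : ∀ Y Z : Submodule ℝ X, IsClosed (Y : Set X) → IsClosed (Z : Set X) →
      ¬ FiniteDimensional ℝ (X ⧸ Y) → ¬ FiniteDimensional ℝ (X ⧸ Z) →
      Nonempty (Y ≃L[ℝ] Z) →
      ∃ τ : X ≃L[ℝ] X, τ '' (Y : Set X) = (Z : Set X))
    (hc0 : ∃ φ : ZeroAtInftyContinuousMap ℕ ℝ →L[ℝ] X,
      Function.Injective φ ∧ IsClosed (Set.range φ)) :
    ∃ Λ : ℝ, ∀ E : Submodule ℝ X, FiniteDimensional ℝ E →
      ∃ (N : ℕ) (u : (Fin N → ℝ) →L[ℝ] X), (∀ x ∈ E, ∃ a, u a = x) ∧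
        ∀ a, ‖a‖ ≤ ‖u a‖ ∧ ‖u a‖ ≤ Λ * ‖a‖ := by
  obtain ⟨φ, hφ, hcl⟩ := hc0
  exact Pool.Agent.H5.Auto.contains_c0 hX φ hφ hcl

end Pool.Agent.Results.MP_783db4_an.ContainsCZero
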