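import Mathlib
import Pool.Agent.H5.Auto.Final

/-!
Infinite-codimensional copies of an automorphic space inside itself.
-/

set_option autoImplicit false

namespace Pool.Agent.Results.MP_783db4_an.SelfCopies

section defs

variable (V W : Type*) [NormedAddCommGroup V] [NormedSpace ℝ V]
  [NormedAddCommGroup W] [NormedSpace ℝ W]

/-- The property of the problem file: any two isomorphic closed subspaces of infinite codimension
are mapped onto each other by an automorphism of the space. -/
def Automorphic : Prop :=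
  ∀ Y Z : Submodule ℝ W, IsClosed (Y : Set W) → IsClosed (Z : Set W) →
    ¬ FiniteDimensional ℝ (W ⧸ Y) → ¬ FiniteDimensional ℝ (W ⧸ Z) →
    Nonempty (Y ≃L[ℝ] Z) →
    ∃ τ : W ≃L[ℝ] W, τ '' (Y : Set W) = (Z : Set W)

/-- `V` and `W` are isomorphic. -/
def Isomorphic : Prop := Nonempty (V ≃L[ℝ] W)

/-- `V` embeds isomorphically in `W`, with closed range. -/
def Embeds : Prop := ∃ k : V →L[ℝ] W, Function.Injective k ∧ IsClosed (Set.range k)

end defs

/-- Let `X` be a separable automorphic Banach space whose dual contains an isomorphic copy of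
`ℓ¹`, and let `Z` be a closed subspace of `X` of infinite codimension, isomorphic to `X`. Then
`X / Z` is isomorphic to `c₀`. -/
theorem result (X : Type*) [NormedAddCommGroup X] [NormedSpace ℝ X] [CompleteSpace X]
    (hsep : TopologicalSpace.SeparableSpace X) (hX : Automorphic X)
    (hl1 : Embeds (lp (fun _ : ℕ => ℝ) 1) (StrongDual ℝ X))
    (Z : Submodule ℝ X) (hZ : IsClosed (Z : Set X)) (hZf : ¬ FiniteDimensional ℝ (X ⧸ Z))
    (hiso : Isomorphic Z X) :
    ∃ T : X →L[ℝ] ZeroAtInftyContinuousMap ℕ ℝ, Function.Surjective T ∧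
      ∀ x, T x = 0 ↔ x ∈ Z := by
  obtain ⟨J, hJ, hcl⟩ := hl1
  obtain ⟨K, hK⟩ := J.antilipschitz_of_injective_of_isClosed_range hJ hcl
  have h : ∀ a, ‖a‖ ≤ K * ‖J a‖ := fun a => by
    have := hK.le_mul_dist a 0
    simpa using this
  refine Pool.Agent.H5.Auto.self_copies hX J (c := ((K : ℝ) + 1)⁻¹) (by positivity)
    (fun a => ?_) Z hZ hZf hiso
  rw [inv_mul_le_iff₀ (by positivity)]
  nlinarith [h a, norm_nonneg (J a)]

end Pool.Agent.Results.MP_783db4_an.SelfCopies
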