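import Mathlib
import Pool.Agent.H5.Auto.Final

/-!
Automorphic spaces with an unconditional basis.
-/

set_option autoImplicit false

namespace Pool.Agent.Results.MP_783db4_an.UnconditionalBasis

/-- An automorphic Banach space with an unconditional basis is isomorphic to `c₀` or
reflexive. -/
theorem result (X : Type*) [NormedAddCommGroup X] [NormedSpace ℝ X] [CompleteSpace X]
    (hX : ∀ Y Z : Submodule ℝ X, IsClosed (Y : Set X) → IsClosed (Z : Set X) →
      ¬ FiniteDimensional ℝ (X ⧸ Y) → ¬ FiniteDimensional ℝ (X ⧸ Z) →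
      Nonempty (Y ≃L[ℝ] Z) →
      ∃ τ : X ≃L[ℝ] X, τ '' (Y : Set X) = (Z : Set X))
    (b : UnconditionalSchauderBasis ℕ ℝ X) :
    Nonempty (X ≃L[ℝ] ZeroAtInftyContinuousMap ℕ ℝ) ∨
      Function.Surjective (NormedSpace.inclusionInDoubleDual ℝ X) :=
  Pool.Agent.H5.Auto.uncond_main hX b

end Pool.Agent.Results.MP_783db4_an.UnconditionalBasis
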